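import Mathlib
import Pool.Agent.H.MP_937656_gt.F

open MeasureTheory Set Filter Topology Metric
open scoped RealInnerProductSpace

namespace Pool.Agent.H.MP_be4961_gt

open Pool.Agent.H.MP_937656_gt

variable {V : Type} [NormedAddCommGroup V] [InnerProductSpace ℝ V] [MeasurableSpace V]
  [BorelSpace V] [FiniteDimensional ℝ V]

/-- sixth moment over the unit ball -/
noncomputable def J (v w : V) : ℝ := ∫ x in closedBall (0 : V) 1, ⟪x, v⟫ ^ 5 * ⟪x, w⟫

lemma J_int (v w : V) : IntegrableOn (fun x : V => ⟪x, v⟫ ^ 5 * ⟪x, w⟫) (closedBall (0 : V) 1) :=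
  ContinuousOn.integrableOn_compact (isCompact_closedBall _ _) (by fun_prop)

lemma J_iso (R : V ≃ₗᵢ[ℝ] V) (v w : V) : J (R v) (R w) = J v w := by
  have := R.measurePreserving.setIntegral_preimage_emb R.toHomeomorph.measurableEmbedding
    (fun x : V => ⟪x, R v⟫ ^ 5 * ⟪x, R w⟫) (closedBall (0 : V) 1)
  unfold J
  rw [← this]
  have e : R ⁻¹' closedBall (0 : V) 1 = closedBall 0 1 := by ext x; simp
  simp only [e, R.inner_map_map]

lemma J_lin (v w w' : V) (a b : ℝ) : J (a • v) (b • w + w') = a ^ 5 * (b * J v w + J v w') := by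
  unfold J
  rw [← integral_const_mul, ← integral_add ((J_int v w).const_mul b) (J_int v w'),
    ← integral_const_mul]
  congr 1
  ext x
  simp only [inner_add_right, real_inner_smul_right]
  ring

lemma J_orth {v w : V} (h : ⟪w, v⟫ = 0) : J v w = 0 := by
  have h1 : (ℝ ∙ w)ᗮ.reflection v = v :=
    Submodule.reflection_mem_subspace_eq_self
      (Submodule.mem_orthogonal_singleton_iff_inner_right.2 h)
  have h2 : (ℝ ∙ w)ᗮ.reflection w = -w :=
    Submodule.reflection_orthogonalComplement_singleton_eq_neg w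
  have h3 := J_iso (ℝ ∙ w)ᗮ.reflection v w
  rw [h1, h2] at h3
  have h4 := J_lin v w 0 1 (-1)
  have h5 : J v 0 = 0 := by simp [J]
  simp only [one_smul, add_zero, neg_smul, h5] at h4
  linarith

lemma J_eq [Nontrivial V] : ∃ c : ℝ, 0 < c ∧ ∀ v w : V, J v w = c * (‖v‖ ^ 2) ^ 2 * ⟪v, w⟫ := by
  obtain ⟨e, he⟩ : ∃ e : V, ‖e‖ = 1 := exists_norm_eq V zero_le_one
  refine ⟨J e e, ?_, fun v w => ?_⟩
  · unfold J
    rw [setIntegral_pos_iff_support_of_nonneg_ae _ (J_int e e)]
    · have hO : IsOpen ({x : V | 0 < ⟪x, e⟫} ∩ ball 0 1) :=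
        (isOpen_lt continuous_const (by fun_prop)).inter isOpen_ball
      refine lt_of_lt_of_le (hO.measure_pos volume ⟨(1 / 2 : ℝ) • e, ?_, ?_⟩) (measure_mono ?_)
      · simp [real_inner_smul_left, he]
      · simp [norm_smul, he]; norm_num
      · rintro x ⟨h1, h2⟩
        refine ⟨?_, ball_subset_closedBall h2⟩
        have : 0 < ⟪x, e⟫ := h1
        simp only [Function.mem_support]
        positivity
    · refine Eventually.of_forall fun x => ?_
      have : ⟪x, e⟫ ^ 5 * ⟪x, e⟫ = (⟪x, e⟫ ^ 3) ^ 2 := by ring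
      simp only [Pi.zero_apply, this]
      positivity
  · rcases eq_or_ne v 0 with rfl | hv
    · simp [J]
    have hn : 0 < ‖v‖ := norm_pos_iff.2 hv
    set u : V := ‖v‖⁻¹ • v with hu
    have u1 : ‖u‖ = 1 := norm_smul_inv_norm hv
    have vu : v = ‖v‖ • u := by rw [hu, smul_smul, mul_inv_cancel₀ hn.ne', one_smul]
    have r1 : (ℝ ∙ (u - e))ᗮ.reflection u = e := Submodule.reflection_sub (by rw [u1, he])
    have r2 := J_iso (ℝ ∙ (u - e))ᗮ.reflection u u
    rw [r1] at r2
    have o : J u (w - ⟪u, w⟫ • u) = 0 := J_orth (by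
      rw [inner_sub_left, real_inner_smul_left, real_inner_self_eq_norm_sq, u1, real_inner_comm]
      ring)
    have := J_lin u u (w - ⟪u, w⟫ • u) ‖v‖ ⟪u, w⟫
    rw [← vu, add_sub_cancel, o, ← r2] at this
    rw [this]
    have : ⟪v, w⟫ = ‖v‖ * ⟪u, w⟫ := by rw [← real_inner_smul_left, ← vu]
    rw [this]
    ring

lemma rad (d : ℕ) {ρ : ℝ} (hρ : 0 ≤ ρ) (c : ℝ) :
    ∫ r in Ioi (0 : ℝ), (Iic ρ).indicator (fun r => r ^ d * c) r = ρ ^ (d + 1) / (d + 1) * c := by
  rw [integral_indicator measurableSet_Iic, Measure.restrict_restrict measurableSet_Iic,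
    inter_comm, Ioi_inter_Iic, ← intervalIntegral.integral_of_le hρ,
    intervalIntegral.integral_mul_const, integral_pow]
  simp

lemma radi (d : ℕ) (ρ c : ℝ) :
    IntegrableOn ((Iic ρ).indicator fun r : ℝ => r ^ d * c) (Ioi 0) := by
  rw [IntegrableOn, integrable_indicator_iff measurableSet_Iic, IntegrableOn,
    Measure.restrict_restrict measurableSet_Iic, inter_comm, Ioi_inter_Iic]
  exact (Continuous.integrableOn_Icc (by fun_prop)).mono_set Ioc_subset_Icc_self

lemma star [Nontrivial V] {ι : Type} [Fintype ι] (a : ι → ℝ) (v : ι → V) {K : Set V}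
    (hK : IsCompact K) {ρ : V → ℝ} (h0 : ∀ θ, ‖θ‖ = 1 → 0 ≤ ρ θ)
    (hm : ∀ θ, ‖θ‖ = 1 → ∀ r : ℝ, 0 < r → (r • θ ∈ K ↔ r ≤ ρ θ)) {κ : ℝ} {d : ℕ}
    (hd : Module.finrank ℝ V = d + 1)
    (ho : ∀ θ, ‖θ‖ = 1 → ρ θ ^ (d + 2) - ρ (-θ) ^ (d + 2) = κ * ∑ j, a j * ⟪θ, v j⟫ ^ 5) :
    ∃ c : ℝ, 0 < c ∧ ∀ w : V,
      ∫ x in K, ⟪x, w⟫ = κ * c * ∑ j, a j * ((‖v j‖ ^ 2) ^ 2 * ⟪v j, w⟫) := by
  obtain ⟨c, hc, hJ⟩ := J_eq (V := V)
  refine ⟨c * (d + 7) / (2 * (d + 2)), by positivity, fun w => ?_⟩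
  have i1 : Integrable (K.indicator fun x : V => ⟪x, w⟫) :=
    (integrable_indicator_iff hK.measurableSet).2
      (ContinuousOn.integrableOn_compact hK (by fun_prop))
  have i2 := i1.comp_neg
  have e1 : 2 * ∫ x in K, ⟪x, w⟫ = ∫ x, (K.indicator (fun x : V => ⟪x, w⟫) x +
      K.indicator (fun x : V => ⟪x, w⟫) (-x)) := by
    rw [integral_add i1 i2, integral_neg_eq_self (K.indicator fun x : V => ⟪x, w⟫),
      integral_indicator hK.measurableSet]
    ring
  have i3 : Integrable ((closedBall (0 : V) 1).indicator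
      fun x : V => (∑ j, a j * ⟪x, v j⟫ ^ 5) * ⟪x, w⟫) :=
    (integrable_indicator_iff measurableSet_closedBall).2
      (ContinuousOn.integrableOn_compact (isCompact_closedBall _ _) (by fun_prop))
  have e2 : ∫ x, (closedBall (0 : V) 1).indicator
      (fun x : V => (∑ j, a j * ⟪x, v j⟫ ^ 5) * ⟪x, w⟫) x =
      c * ∑ j, a j * ((‖v j‖ ^ 2) ^ 2 * ⟪v j, w⟫) := by
    rw [integral_indicator measurableSet_closedBall]
    simp only [Finset.sum_mul, mul_assoc]
    rw [integral_finsetSum _ fun j _ => (J_int (v j) w).const_mul (a j), Finset.mul_sum]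
    refine Finset.sum_congr rfl fun j _ => ?_
    rw [integral_const_mul]
    have := hJ (v j) w
    unfold J at this
    rw [this]
    ring
  rw [polar volume (i1.add i2 : Integrable fun x => K.indicator (fun x : V => ⟪x, w⟫) x +
      K.indicator (fun x : V => ⟪x, w⟫) (-x))] at e1
  rw [polar volume i3] at e2
  have e3 : ∀ u : sphere (0 : V) 1, (∫ r in Ioi (0 : ℝ), r ^ (Module.finrank ℝ V - 1) *
      (K.indicator (fun x : V => ⟪x, w⟫) (r • (u : V)) +
      K.indicator (fun x : V => ⟪x, w⟫) (-(r • (u : V))))) = κ * (d + 7) / (d + 2) *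
      ∫ r in Ioi (0 : ℝ), r ^ (Module.finrank ℝ V - 1) * (closedBall (0 : V) 1).indicator
      (fun x : V => (∑ j, a j * ⟪x, v j⟫ ^ 5) * ⟪x, w⟫) (r • (u : V)) := by
    intro u
    have u1 : ‖(u : V)‖ = 1 := by simp
    have u2 : ‖-(u : V)‖ = 1 := by simp
    rw [hd, Nat.add_sub_cancel]
    rw [setIntegral_congr_fun measurableSet_Ioi (g := fun r =>
      (Iic (ρ u)).indicator (fun r => r ^ (d + 1) * ⟪(u : V), w⟫) r +
      (Iic (ρ (-u))).indicator (fun r => r ^ (d + 1) * -⟪(u : V), w⟫) r),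
      setIntegral_congr_fun measurableSet_Ioi (f := fun r => r ^ d * (closedBall (0 : V) 1).indicator
      (fun x : V => (∑ j, a j * ⟪x, v j⟫ ^ 5) * ⟪x, w⟫) (r • (u : V))) (g := fun r =>
      (Iic 1).indicator (fun r => r ^ (d + 6) *
        ((∑ j, a j * ⟪(u : V), v j⟫ ^ 5) * ⟪(u : V), w⟫)) r),
      integral_add (radi _ _ _) (radi _ _ _), rad _ (h0 _ u1), rad _ (h0 _ u2), rad _ zero_le_one]
    · have := ho _ u1
      have e4 : ((d + 1 : ℕ) : ℝ) + 1 = d + 2 := by push_cast; ring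
      have e5 : ((d + 6 : ℕ) : ℝ) + 1 = d + 7 := by push_cast; ring
      rw [e4, e5, one_pow]
      have e6 : κ * (d + 7) / (d + 2) * (1 / (d + 7) * ((∑ j, a j * ⟪(u : V), v j⟫ ^ 5) *
        ⟪(u : V), w⟫)) = (κ * ∑ j, a j * ⟪(u : V), v j⟫ ^ 5) / (d + 2) * ⟪(u : V), w⟫ := by
        field_simp
      rw [e6, ← this]
      ring
    · intro r hr
      have hr : 0 < r := hr
      simp only
      by_cases h : r ≤ 1
      · rw [indicator_of_mem (by simp [norm_smul, u1, abs_of_pos hr, h]), indicator_of_mem (mem_Iic.2 h)]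
        simp only [real_inner_smul_left, mul_pow]
        rw [show ∑ j, a j * (r ^ 5 * ⟪(u : V), v j⟫ ^ 5) = r ^ 5 * ∑ j, a j * ⟪(u : V), v j⟫ ^ 5 by
          rw [Finset.mul_sum]; exact Finset.sum_congr rfl fun j _ => by ring]
        ring
      · rw [indicator_of_notMem (by simp [norm_smul, u1, abs_of_pos hr, not_le.1 h]),
          indicator_of_notMem (mt mem_Iic.1 h), mul_zero]
    · intro r hr
      have hr : 0 < r := hr
      simp only
      rw [mul_add, ← smul_neg]
      congr 1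
      · by_cases h : r ≤ ρ u
        · rw [indicator_of_mem ((hm _ u1 r hr).2 h), indicator_of_mem (mem_Iic.2 h), real_inner_smul_left]
          ring
        · rw [indicator_of_notMem (mt (hm _ u1 r hr).1 h), indicator_of_notMem (mt mem_Iic.1 h), mul_zero]
      · by_cases h : r ≤ ρ (-u)
        · rw [indicator_of_mem ((hm _ u2 r hr).2 h), indicator_of_mem (mem_Iic.2 h), real_inner_smul_left,
            inner_neg_left]
          ring
        · rw [indicator_of_notMem (mt (hm _ u2 r hr).1 h), indicator_of_notMem (mt mem_Iic.1 h), mul_zero]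
  simp only [e3] at e1
  rw [integral_const_mul, e2] at e1
  field_simp at e1 ⊢
  linarith

end Pool.Agent.H.MP_be4961_gt
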