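import Mathlib

open Set Filter Topology Metric

namespace Pool.Agent.H.MP_be4961_gt

lemma exf : ∃ f : ℝ → ℝ, ContDiffAt ℝ 2 f 0 ∧ f 0 = 1 ∧
    ∀ᶠ s in 𝓝 (0 : ℝ), f s ^ 3 - f (-s) ^ 3 = 2 * s ∧ f s ^ 4 - f (-s) ^ 4 = 8 / 3 * s := by
  let m : ℝ → ℝ := fun t => (3 + t ^ 2) / (3 * (1 + t ^ 2))
  let q : ℝ → ℝ := fun t => m t ^ 3 * (3 + t ^ 2)
  let S : ℝ → ℝ := fun t => t * q t
  have hm : ContDiff ℝ 2 m := ContDiff.div (by fun_prop) (by fun_prop) fun t => by positivity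
  have hq : ContDiff ℝ 2 q := by simp only [q]; fun_prop
  have hS : ContDiff ℝ 2 S := by simp only [S]; fun_prop
  have q0 : q 0 = 3 := by simp [q, m]
  have d0 : HasDerivAt S 3 0 := by
    have := (hasDerivAt_id' (0 : ℝ)).fun_mul (hq.differentiable (by norm_num) 0).hasDerivAt
    simpa [q0] using this
  have d1 := d0.hasFDerivAt_equiv (by norm_num)
  have S0 : S 0 = 0 := by simp [S]
  have hst := hS.contDiffAt.hasStrictFDerivAt' d1 (by norm_num)
  set g := hS.contDiffAt.localInverse d1 (by norm_num) with hg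
  have g0 : g 0 = 0 := by
    have := hS.contDiffAt.localInverse_apply_image d1 (by norm_num)
    rwa [S0] at this
  have gc : ContDiffAt ℝ 2 g 0 := by
    have := hS.contDiffAt.to_localInverse d1 (by norm_num)
    rwa [S0] at this
  have l : ∀ᶠ t in 𝓝 (0 : ℝ), g (S t) = t := hst.eventually_left_inverse
  have r : ∀ᶠ s in 𝓝 (0 : ℝ), S (g s) = s := by
    have := hst.eventually_right_inverse
    rwa [S0] at this
  have t1 : Tendsto (fun s => -g s) (𝓝 0) (𝓝 0) := by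
    have := gc.continuousAt.tendsto.neg
    rwa [g0, neg_zero] at this
  refine ⟨fun s => m (g s) * (1 + g s), ?_, by simp [g0, m], ?_⟩
  · exact (hm.contDiffAt.comp 0 gc).mul (contDiffAt_const.add gc)
  · filter_upwards [r, t1.eventually l] with s h1 h2
    have h3 : S (-g s) = -s := by rw [← h1]; simp [S, q, m, h1]
    rw [h3] at h2
    have h4 : m (-g s) = m (g s) := by simp [m]
    rw [h2, h4]
    have h5 : m (g s) * (3 * (1 + g s ^ 2)) = 3 + g s ^ 2 := div_mul_cancel₀ _ (by positivity)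
    simp only [S, q] at h1
    constructor
    · linear_combination 2 * h1
    · linear_combination 8 / 3 * h1 + 8 / 3 * m (g s) ^ 3 * g s * h5

variable {E : Type} [NormedAddCommGroup E] [NormedSpace ℝ E]

lemma line2 {Φ : E → ℝ} {p : E} (h : ContDiffAt ℝ 2 Φ p) (w : E) :
    (∀ᶠ t in 𝓝 (0 : ℝ), DifferentiableAt ℝ (fun t : ℝ => Φ (p + t • w)) t) ∧
    HasDerivAt (deriv fun t : ℝ => Φ (p + t • w)) (fderiv ℝ (fderiv ℝ Φ) p w w) 0 := by
  have l : ∀ t : ℝ, HasDerivAt (fun t : ℝ => p + t • w) w t := fun t => by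
    simpa using ((hasDerivAt_id t).smul_const w).const_add p
  have tl : Tendsto (fun t : ℝ => p + t • w) (𝓝 0) (𝓝 p) := by
    simpa using (l 0).continuousAt.tendsto
  have ev := tl.eventually (h.eventually (by simp))
  have e1 : ∀ᶠ t in 𝓝 (0 : ℝ), HasDerivAt (fun t : ℝ => Φ (p + t • w))
      (fderiv ℝ Φ (p + t • w) w) t := by
    filter_upwards [ev] with t ht
    exact (ht.differentiableAt (by norm_num)).hasFDerivAt.comp_hasDerivAt t (l t)
  refine ⟨e1.mono fun t ht => ht.differentiableAt, ?_⟩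
  have h1 : ContDiffAt ℝ 1 (fderiv ℝ Φ) p := h.fderiv_right (by norm_num)
  have h2 : HasDerivAt (fun t : ℝ => fderiv ℝ Φ (p + t • w)) (fderiv ℝ (fderiv ℝ Φ) p w) 0 := by
    have : HasFDerivAt (fderiv ℝ Φ) (fderiv ℝ (fderiv ℝ Φ) p) (p + (0 : ℝ) • w) := by
      simpa using (h1.differentiableAt (by norm_num)).hasFDerivAt
    exact this.comp_hasDerivAt 0 (l 0)
  have h3 := h2.clm_apply (hasDerivAt_const (0 : ℝ) w)
  simp only [map_zero, add_zero] at h3
  exact h3.congr_of_eventuallyEq (e1.mono fun t ht => ht.deriv)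

end Pool.Agent.H.MP_be4961_gt

namespace Pool.Agent.H.MP_be4961_gt

open scoped RealInnerProductSpace

variable {E : Type} [NormedAddCommGroup E] [InnerProductSpace ℝ E] [FiniteDimensional ℝ E]

omit [FiniteDimensional ℝ E] in
lemma nsi {x : E} (h : x ≠ 0) : ‖‖x‖⁻¹ • x‖ = 1 := norm_smul_inv_norm h

lemma hess {Φ : ℝ × E → ℝ} (h : ∀ θ, ‖θ‖ = 1 → ContDiffAt ℝ 2 Φ (0, θ))
    (h0 : ∀ x, Φ (0, x) = ‖x‖ ^ 2) :
    ∀ᶠ ε in 𝓝 (0 : ℝ), ∀ θ, ‖θ‖ = 1 → ContDiffAt ℝ 2 Φ (ε, θ) ∧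
      ∀ v, 0 ≤ fderiv ℝ (fderiv ℝ Φ) (ε, θ) (0, v) (0, v) := by
  have hK := (isCompact_sphere (0 : E) 1).prod (isCompact_sphere (0 : E) 1)
  have := hK.eventually_forall_of_forall_eventually (x₀ := (0 : ℝ))
    (P := fun ε y => ContDiffAt ℝ 2 Φ (ε, y.1) ∧
      0 < fderiv ℝ (fderiv ℝ Φ) (ε, y.1) (0, y.2) (0, y.2)) (by
    rintro ⟨θ, v⟩ ⟨h1, h2⟩
    have h1 : ‖θ‖ = 1 := by simpa using h1
    have h2 : ‖v‖ = 1 := by simpa using h2
    have t : Tendsto (fun z : ℝ × E × E => (z.1, z.2.1)) (𝓝 (0, θ, v)) (𝓝 (0, θ)) :=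
      Continuous.tendsto' (by fun_prop) _ _ rfl
    refine (t.eventually ((h θ h1).eventually (by simp))).and ?_
    have c1 : ContinuousAt (fderiv ℝ (fderiv ℝ Φ)) (0, θ) :=
      (((h θ h1).fderiv_right (m := 1) (by norm_num)).fderiv_right (m := 0)
        (by norm_num)).continuousAt
    have c2 : ContinuousAt (fun z : ℝ × E × E =>
        fderiv ℝ (fderiv ℝ Φ) (z.1, z.2.1) (0, z.2.2) (0, z.2.2)) (0, θ, v) := by
      have c3 : ContinuousAt (fun z : ℝ × E × E => fderiv ℝ (fderiv ℝ Φ) (z.1, z.2.1)) (0, θ, v) :=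
        ContinuousAt.comp (f := fun z : ℝ × E × E => (z.1, z.2.1)) c1 (by fun_prop)
      exact (c3.clm_apply (by fun_prop)).clm_apply (by fun_prop)
    refine ContinuousAt.eventually_lt continuousAt_const c2 ?_
    have k := (line2 (h θ h1) (0, v)).2
    have e : (fun t : ℝ => Φ ((0, θ) + t • (0, v))) = fun t => 1 + 2 * ⟪θ, v⟫ * t + t ^ 2 := by
      ext t
      simp only [Prod.smul_mk, smul_zero, Prod.mk_add_mk, add_zero, h0, norm_add_sq_real, h1,
        real_inner_smul_right, norm_smul, h2, mul_one, Real.norm_eq_abs, sq_abs]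
      ring
    have e' : deriv (fun t : ℝ => 1 + 2 * ⟪θ, v⟫ * t + t ^ 2) = fun t => 2 * ⟪θ, v⟫ + 2 * t := by
      ext t
      have := (((hasDerivAt_id' t).const_mul (2 * ⟪θ, v⟫)).const_add 1).fun_add (hasDerivAt_pow 2 t)
      simpa using this.deriv
    rw [e, e'] at k
    have k2 : HasDerivAt (fun t : ℝ => 2 * ⟪θ, v⟫ + 2 * t) 2 0 := by
      simpa using ((hasDerivAt_id (0 : ℝ)).const_mul 2).const_add (2 * ⟪θ, v⟫)
    simp only
    rw [k.unique k2]
    norm_num)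
  filter_upwards [this] with ε hε θ hθ
  refine ⟨(hε (θ, θ) ⟨by simpa using hθ, by simpa using hθ⟩).1, fun v => ?_⟩
  rcases eq_or_ne v 0 with rfl | hv
  · simp [Prod.mk_zero_zero]
  have := (hε (θ, ‖v‖⁻¹ • v) ⟨by simpa using hθ, by simpa using nsi hv⟩).2
  have e : ((0 : ℝ), v) = ‖v‖ • ((0 : ℝ), ‖v‖⁻¹ • v) := by
    simp [smul_smul, norm_ne_zero_iff.2 hv]
  rw [e]
  simp only [map_smul, smul_apply, smul_eq_mul] at this ⊢
  positivity

omit [FiniteDimensional ℝ E] in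
lemma cvx {Φ : ℝ × E → ℝ} {ε : ℝ} (h : ∀ θ, ‖θ‖ = 1 → ContDiffAt ℝ 2 Φ (ε, θ) ∧
      ∀ v, 0 ≤ fderiv ℝ (fderiv ℝ Φ) (ε, θ) (0, v) (0, v))
    (hh : ∀ x (s : ℝ), 0 ≤ s → Φ (ε, s • x) = s ^ 2 * Φ (ε, x)) :
    Convex ℝ {x | Φ (ε, x) ≤ 1} := by
  have star : ∀ x (s : ℝ), 0 ≤ s → s ≤ 1 → Φ (ε, x) ≤ 1 → Φ (ε, s • x) ≤ 1 := by
    intro x s h0 h1 hx
    rw [hh x s h0]
    have : s ^ 2 ≤ 1 := by nlinarith
    nlinarith [sq_nonneg s]
  intro x hx y hy a b ha hb hab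
  by_cases hz : ∃ t ∈ Icc (0 : ℝ) 1, x + t • (y - x) = 0
  · obtain ⟨t, ht, e⟩ := hz
    have a1 : a = 1 - b := by linarith
    subst a1
    rcases lt_trichotomy b t with k | k | k
    · have t0 : t ≠ 0 := by linarith
      have : (1 - b) • x + b • y = (1 - b / t) • x := by
        have : (1 - b) • x + b • y = (1 - b / t) • x + (b / t) • (x + t • (y - x)) := by
          rw [smul_add, smul_smul, div_mul_cancel₀ _ t0]; module
        rw [this, e]; simp
      rw [this]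
      have := (div_le_one (by linarith)).2 k.le
      have := div_nonneg hb ht.1
      exact star x _ (by linarith) (by linarith) hx
    · have : (1 - b) • x + b • y = (0 : ℝ) • x := by rw [zero_smul, ← e, k]; module
      rw [this]
      exact star x _ le_rfl zero_le_one hx
    · have t0 : 0 < 1 - t := by linarith
      have : (1 - b) • x + b • y = ((b - t) / (1 - t)) • y := by
        have : (1 - b) • x + b • y = ((b - t) / (1 - t)) • y +
            ((1 - b) / (1 - t)) • (x + t • (y - x)) := by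
          match_scalars <;> field_simp <;> ring
        rw [this, e]; simp
      rw [this]
      exact star y _ (div_nonneg (by linarith) t0.le) ((div_le_one t0).2 (by linarith)) hy
  push Not at hz
  set q : ℝ → ℝ := fun t => Φ (ε, x + t • (y - x)) with hq
  have key : ∀ t ∈ Icc (0 : ℝ) 1, DifferentiableAt ℝ q t ∧ ∃ D, 0 ≤ D ∧ HasDerivAt (deriv q) D t := by
    intro t ht
    set z := x + t • (y - x) with hzz
    have z0 : 0 < ‖z‖ := norm_pos_iff.2 (hz t ht)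
    obtain ⟨c, p⟩ := h (‖z‖⁻¹ • z) (norm_smul_inv_norm (hz t ht))
    obtain ⟨l1, l2⟩ := line2 c (0, ‖z‖⁻¹ • (y - x))
    set r : ℝ → ℝ := fun s => Φ ((ε, ‖z‖⁻¹ • z) + s • (0, ‖z‖⁻¹ • (y - x))) with hr
    have e : q = fun s => ‖z‖ ^ 2 * r (s - t) := by
      ext s
      simp only [hq, hr, Prod.smul_mk, smul_zero, Prod.mk_add_mk, add_zero]
      rw [← hh _ _ z0.le]
      congr 2
      rw [smul_add, smul_comm (s - t), smul_inv_smul₀ z0.ne', smul_inv_smul₀ z0.ne', hzz]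
      module
    have e' : deriv q = fun s => ‖z‖ ^ 2 * deriv r (s - t) := by
      ext s
      rw [e, deriv_const_mul_field, deriv_comp_sub_const]
    refine ⟨?_, ‖z‖ ^ 2 * _, mul_nonneg (by positivity) (p (‖z‖⁻¹ • (y - x))), ?_⟩
    · rw [e]
      refine DifferentiableAt.const_mul ?_ _
      have := l1.self_of_nhds
      exact DifferentiableAt.comp (g := r) t (by simpa using this) (by fun_prop)
    · rw [e']
      refine HasDerivAt.const_mul _ ?_
      exact HasDerivAt.comp_sub_const t t (by simpa using l2)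
  have cq : ConvexOn ℝ (Icc 0 1) q := by
    refine convexOn_of_deriv2_nonneg (convex_Icc 0 1)
      (fun t ht => (key t ht).1.continuousAt.continuousWithinAt)
      (fun t ht => (key t (interior_subset ht)).1.differentiableWithinAt)
      (fun t ht => ?_) fun t ht => ?_
    · obtain ⟨D, -, hD⟩ := (key t (interior_subset ht)).2
      exact hD.differentiableAt.differentiableWithinAt
    · obtain ⟨D, h0, hD⟩ := (key t (interior_subset ht)).2
      change 0 ≤ deriv (deriv q) t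
      rwa [hD.deriv]
  have := cq.2 (left_mem_Icc.2 zero_le_one) (right_mem_Icc.2 zero_le_one) ha hb hab
  simp only [hq, smul_eq_mul, mul_zero, mul_one, zero_add, zero_smul, add_zero, one_smul,
    add_sub_cancel] at this
  have e : a • x + b • y = x + b • (y - x) := by
    have a1 : a = 1 - b := by linarith
    subst a1
    module
  have hx' : Φ (ε, x) ≤ 1 := hx
  have hy' : Φ (ε, y) ≤ 1 := hy
  change Φ (ε, a • x + b • y) ≤ 1
  rw [e]
  nlinarith

lemma body {φ : E → ℝ} (hφ : ContDiff ℝ 2 φ) (ho : ∀ x, φ (-x) = -φ x) :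
    ∃ (ε : ℝ) (K : Set E) (ρ : E → ℝ), ε ≠ 0 ∧ IsCompact K ∧ Convex ℝ K ∧ ball 0 (1 / 2) ⊆ K ∧
      ∀ θ, ‖θ‖ = 1 → 0 ≤ ρ θ ∧ (∀ r : ℝ, 0 < r → (r • θ ∈ K ↔ r ≤ ρ θ)) ∧
        ρ θ ^ 3 - ρ (-θ) ^ 3 = 2 * ε * φ θ ∧ ρ θ ^ 4 - ρ (-θ) ^ 4 = 8 / 3 * ε * φ θ := by
  obtain ⟨f, fc, f0, fe⟩ := exf
  let Φ : ℝ × E → ℝ := fun p => ‖p.2‖ ^ 2 * (f (p.1 * φ (‖p.2‖⁻¹ • p.2)))⁻¹ ^ 2
  have hc : ∀ θ, ‖θ‖ = 1 → ContDiffAt ℝ 2 Φ (0, θ) := by
    intro θ hθ
    have θ0 : θ ≠ 0 := by rintro rfl; simp at hθ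
    have n : ContDiffAt ℝ 2 (fun p : ℝ × E => ‖p.2‖) (0, θ) := contDiffAt_snd.norm ℝ θ0
    have n2 : ContDiffAt ℝ 2 (fun p : ℝ × E => p.1 * φ (‖p.2‖⁻¹ • p.2)) (0, θ) :=
      contDiffAt_fst.mul (hφ.contDiffAt.comp _
        ((n.inv (by simp [hθ])).smul contDiffAt_snd))
    have n3 : ContDiffAt ℝ 2 (fun p : ℝ × E => f (p.1 * φ (‖p.2‖⁻¹ • p.2))) (0, θ) :=
      ContDiffAt.comp (g := f) _ (by simpa using fc) n2
    exact (n.pow 2).mul ((n3.inv (by simp [f0])).pow 2)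
  have h1 := hess hc (fun x => by simp [Φ, f0])
  have fb : ∀ᶠ s in 𝓝 (0 : ℝ), f s ∈ Ioo (1 / 2 : ℝ) 2 :=
    fc.continuousAt.eventually (isOpen_Ioo.mem_nhds (by rw [f0]; norm_num))
  have h2 := (isCompact_sphere (0 : E) 1).eventually_forall_of_forall_eventually (x₀ := (0 : ℝ))
    (P := fun ε θ => f (ε * φ θ) ∈ Ioo (1 / 2 : ℝ) 2 ∧
      f (ε * φ θ) ^ 3 - f (-(ε * φ θ)) ^ 3 = 2 * (ε * φ θ) ∧
      f (ε * φ θ) ^ 4 - f (-(ε * φ θ)) ^ 4 = 8 / 3 * (ε * φ θ)) (by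
    intro θ _
    have t : Tendsto (fun z : ℝ × E => z.1 * φ z.2) (𝓝 (0, θ)) (𝓝 0) :=
      Continuous.tendsto' (by have := hφ.continuous; fun_prop) _ _ (by simp)
    exact t.eventually (fb.and fe))
  obtain ⟨ε, ⟨k1, k2⟩, k0⟩ := (((h1.and h2).filter_mono nhdsWithin_le_nhds).and
    (self_mem_nhdsWithin (s := {(0 : ℝ)}ᶜ))).exists
  have hh : ∀ x (s : ℝ), 0 ≤ s → Φ (ε, s • x) = s ^ 2 * Φ (ε, x) := by
    intro x s hs
    rcases hs.eq_or_lt with rfl | hs
    · simp [Φ]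
    have : ‖s • x‖⁻¹ • s • x = ‖x‖⁻¹ • x := by
      rw [norm_smul, Real.norm_of_nonneg hs.le, smul_smul]
      congr 1
      field_simp
    simp only [Φ, this]
    rw [norm_smul, Real.norm_of_nonneg hs.le]
    ring
  have k3 : ∀ θ : E, ‖θ‖ = 1 → _ := fun θ hθ => k2 θ (by simpa using hθ)
  have mem : ∀ θ, ‖θ‖ = 1 → ∀ r : ℝ, 0 < r → (Φ (ε, r • θ) ≤ 1 ↔ r ≤ f (ε * φ θ)) := by
    intro θ hθ r hr
    have p : 0 < f (ε * φ θ) := by linarith [(k3 θ hθ).1.1]
    rw [hh _ _ hr.le]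
    simp only [Φ, hθ, inv_one, one_smul, one_pow, one_mul]
    rw [← mul_pow, ← div_eq_mul_inv, sq_le_one_iff₀ (by positivity), div_le_one p]
  have dec : ∀ x : E, x ≠ 0 → x = ‖x‖ • ‖x‖⁻¹ • x := fun x hx =>
    (smul_inv_smul₀ (norm_ne_zero_iff.2 hx) x).symm
  have z0 : Φ (ε, 0) ≤ 1 := by simp [Φ]
  refine ⟨ε, {x | Φ (ε, x) ≤ 1}, fun θ => f (ε * φ θ), k0, ?_, cvx k1 hh, ?_, fun θ hθ =>
    ⟨by linarith [(k3 θ hθ).1.1], mem θ hθ, ?_, ?_⟩⟩
  · refine (isCompact_closedBall (0 : E) 2).of_isClosed_subset ?_ ?_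
    · refine isClosed_of_closure_subset fun x hx => ?_
      rcases eq_or_ne x 0 with rfl | h0
      · exact z0
      have c : ContinuousAt (fun x => Φ (ε, x)) x := by
        have c1 := (k1 _ (nsi h0)).1.continuousAt
        have c2 : ContinuousAt (fun y : E => ‖x‖ ^ 2 * Φ (ε, ‖x‖⁻¹ • y)) x :=
          continuousAt_const.mul (ContinuousAt.comp (f := fun y : E => (ε, ‖x‖⁻¹ • y)) c1
            (by fun_prop))
        convert c2 using 2 with y
        rw [← hh _ _ (norm_nonneg _), smul_inv_smul₀ (norm_ne_zero_iff.2 h0)]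
      exact ContinuousWithinAt.closure_le hx c.continuousWithinAt continuousWithinAt_const
        fun y hy => hy
    · intro x hx
      rcases eq_or_ne x 0 with rfl | h0
      · simp
      have u := nsi h0
      have := (mem _ u _ (norm_pos_iff.2 h0)).1 (by rw [← dec x h0]; exact hx)
      simpa using this.trans (k3 _ u).1.2.le
  · intro x hx
    rcases eq_or_ne x 0 with rfl | h0
    · exact z0
    have u := nsi h0
    have := (mem _ u _ (norm_pos_iff.2 h0)).2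
      ((mem_ball_zero_iff.1 hx).le.trans (k3 _ u).1.1.le)
    rwa [← dec x h0] at this
  · have := (k3 θ hθ).2.1
    simp only [ho, mul_neg]
    linarith
  · have := (k3 θ hθ).2.2
    simp only [ho, mul_neg]
    linarith

end Pool.Agent.H.MP_be4961_gt
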