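import Mathlib

namespace Pool.Agent.H.MP_be4961_gt

/-- weights -/
def cA : Fin 18 → ℝ := ![14400000, 2035684, 2044316, 2040000, 2040000, 361686, 361686, 358314,
  358314, -300175, -299825, -300000, -300000, 7590, -4876, -4876, 140, 140]
/-- first coordinates -/
def cP : Fin 18 → ℝ := ![0, 1, -1, 0, 0, 1, 1, -1, -1, 1, -1, 0, 0, 1, 1, 1, 2, 2]
/-- second coordinates -/
def cQ : Fin 18 → ℝ := ![0, 0, 0, 1, -1, 1, -1, 1, -1, 0, 0, 1, -1, 0, 1, -1, 1, -1]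
/-- third coordinates -/
def cR : Fin 18 → ℝ := ![1, 1, 1, 1, 1, 1, 1, 1, 1, 2, 2, 2, 2, 0, 0, 0, 0, 0]

lemma glob (a b c : ℝ) :
    ∑ j, cA j * ((cP j ^ 2 + cQ j ^ 2 + cR j ^ 2) ^ 2 * (cP j * a + cQ j * b + cR j * c)) = 0 := by
  simp only [cA, cP, cQ, cR, Fin.sum_univ_succ, Matrix.cons_val_zero, Matrix.cons_val_succ,
    Fin.sum_univ_zero]
  ring

lemma alg {x y z : ℝ} (hs : x ^ 2 + y ^ 2 + z ^ 2 = 1)
    (h : ∀ a b c : ℝ, x * a + y * b + z * c = 0 →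
      ∑ j, cA j * ((cP j ^ 2 + cQ j ^ 2 + cR j ^ 2 - (cP j * x + cQ j * y + cR j * z) ^ 2) ^ 2 *
        (cP j * a + cQ j * b + cR j * c)) = 0) :
    y = 0 ∧ x ≠ 0 ∧ -2 * (z / x) ^ 3 + 120000 * (z / x) ^ 2 + -2 * (z / x) + -30000 = 0 := by
  have g : ∀ a b c : ℝ, x * a + y * b + z * c = 0 →
      ∑ j, cA j * (((cP j ^ 2 + cQ j ^ 2 + cR j ^ 2) * (x ^ 2 + y ^ 2 + z ^ 2) -
        (cP j * x + cQ j * y + cR j * z) ^ 2) ^ 2 * (cP j * a + cQ j * b + cR j * c)) = 0 := by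
    intro a b c e
    rw [hs]
    simpa using h a b c e
  have g1 := g y (-x) 0 (by ring)
  have g2 := g 0 (-z) y (by ring)
  have g3 := g (-z) 0 x (by ring)
  simp only [cA, cP, cQ, cR, Fin.sum_univ_succ, Matrix.cons_val_zero, Matrix.cons_val_succ,
    Fin.sum_univ_zero] at g1 g2 g3
  have k1 : ∀ R, R = x ^ 2 + y ^ 2 + z ^ 2 →
      y * (2 * R ^ 2 - 35 * (R - 5 * z ^ 2) * (y ^ 2 - 2 * x ^ 2)) = 0 := by
    rintro R rfl; linear_combination (1 / 288) * g1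
  have k2 : ∀ R, R = x ^ 2 + y ^ 2 + z ^ 2 → y * (10000 * (15 * z ^ 2 * R - 3 * R ^ 2) +
      35 * x * z * (2 * (R - 5 * z ^ 2) + 10 * y ^ 2)) = 0 := by
    rintro R rfl; linear_combination (1 / 288) * g2
  have k3 : ∀ R, R = x ^ 2 + y ^ 2 + z ^ 2 → 10000 * x * (15 * z ^ 2 * R - 3 * R ^ 2) -
      2 * z * R ^ 2 + 35 * y ^ 2 * (z * (R - 5 * z ^ 2) + 10 * x ^ 2 * z) = 0 := by
    rintro R rfl; linear_combination (1 / 288) * g3
  have k1 := k1 1 hs.symm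
  have k2 := k2 1 hs.symm
  have k3 := k3 1 hs.symm
  clear g1 g2 g3 g h
  have y0 : y = 0 := by
    by_contra hy
    have m1 := (mul_eq_zero.1 k1).resolve_left hy
    have m2 := (mul_eq_zero.1 k2).resolve_left hy
    set w := 1 - 5 * z ^ 2 with hw
    have b1 : |y ^ 2 - 2 * x ^ 2| ≤ 2 := abs_le.2 ⟨by nlinarith, by nlinarith⟩
    have b2 : |x * z| ≤ 1 / 2 := abs_le.2 ⟨by nlinarith [sq_nonneg (x + z)],
      by nlinarith [sq_nonneg (x - z)]⟩
    have b3 : 2 ≤ 70 * |w| := by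
      have : (2 : ℝ) = 35 * (w * (y ^ 2 - 2 * x ^ 2)) := by linarith
      have h2 := le_abs_self (w * (y ^ 2 - 2 * x ^ 2))
      rw [abs_mul] at h2
      nlinarith [abs_nonneg w]
    have b4 : |2 * w + 10 * y ^ 2| ≤ 2 * |w| + 10 := by
      refine (abs_add_le _ _).trans ?_
      rw [abs_mul, abs_two, abs_of_nonneg (by positivity : 0 ≤ 10 * y ^ 2)]
      nlinarith
    have b5 : 30000 * w = 35 * (x * z * (2 * w + 10 * y ^ 2)) := by
      rw [hw] at m2 ⊢; linarith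
    have b6 : 30000 * |w| = 35 * (|x * z| * |2 * w + 10 * y ^ 2|) := by
      have := congrArg abs b5
      rwa [abs_mul, abs_mul, abs_mul (x * z), abs_of_pos (by norm_num : (0 : ℝ) < 30000),
        abs_of_pos (by norm_num : (0 : ℝ) < 35)] at this
    have b7 := mul_le_mul b2 b4 (abs_nonneg _) (by norm_num)
    linarith
  subst y0
  have x0 : x ≠ 0 := by
    rintro rfl
    have : z = 0 := by linarith
    subst this
    norm_num at hs
  refine ⟨rfl, x0, ?_⟩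
  field_simp
  linear_combination k3 - (30000 * x + 2 * z) * hs

end Pool.Agent.H.MP_be4961_gt
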